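import Pool.Agent.K3h16.MI.Stm

/-! The entire function `(e^τ - 1 - τ)/τ²` and the identity theorem (helper7, for helper16). -/

open MeasureTheory Set Filter Topology

namespace Pool.Agent.K3h7.MI

open Pool.Agent.K3h16.MI

theorem t_PHI : S_PHI := by
  have h1 : Differentiable ℂ (dslope Complex.exp 0) := by
    rw [← differentiableOn_univ, Complex.differentiableOn_dslope univ_mem, differentiableOn_univ]
    exact Complex.differentiable_exp
  have h2 : Differentiable ℂ (dslope (dslope Complex.exp 0) 0) := by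
    rw [← differentiableOn_univ, Complex.differentiableOn_dslope univ_mem, differentiableOn_univ]
    exact h1
  refine ⟨dslope (dslope Complex.exp 0) 0, h2, fun τ => ?_⟩
  have h3 := sub_smul_dslope (dslope Complex.exp 0) 0 τ
  have h4 := sub_smul_dslope Complex.exp 0 τ
  have h5 : dslope Complex.exp 0 0 = 1 := by
    rw [dslope_same, Complex.deriv_exp, Complex.exp_zero]
  rw [h5, sub_zero, smul_eq_mul] at h3
  rw [Complex.exp_zero, sub_zero, smul_eq_mul] at h4
  linear_combination (-1 : ℂ) * h4 - τ * h3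

theorem t_IDENT : S_IDENT := by
  intro m A B hB hA hs
  obtain ⟨H, hH⟩ : ∃ H : Set ℂ, H = {z : ℂ | -(2 * (m : ℝ)) - 1 < z.re} := ⟨_, rfl⟩
  have hHo : IsOpen H := by
    rw [hH]
    exact isOpen_lt continuous_const Complex.continuous_re
  have hHc : IsPreconnected H := by
    rw [hH]
    exact (convex_halfSpace_re_gt _).isPreconnected
  obtain ⟨F, hF⟩ : ∃ F : ℂ → ℂ, F = fun z => pm m z * B z - A z := ⟨_, rfl⟩
  have hpm : Differentiable ℂ (pm m) := by
    unfold pm
    fun_prop
  have hFm : MeromorphicOn F H := by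
    intro z hz
    rw [hF]
    refine ((hpm.analyticAt z).meromorphicAt.mul (hB z)).sub ?_
    rw [← hH] at hA
    exact (hA.analyticAt (hHo.mem_nhds hz)).meromorphicAt
  have h5 : (5 : ℂ) ∈ H := by
    rw [hH]
    have : (0 : ℝ) ≤ m := Nat.cast_nonneg m
    show -(2 * (m : ℝ)) - 1 < (5 : ℂ).re
    have e : (5 : ℂ).re = 5 := by simp
    rw [e]
    linarith
  have hm : (-(2 * (m : ℂ))) ∈ H := by
    rw [hH]
    show -(2 * (m : ℝ)) - 1 < (-(2 * (m : ℂ))).re
    have e : (-(2 * (m : ℂ))).re = -(2 * (m : ℝ)) := by simp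
    rw [e]
    linarith
  have htop : meromorphicOrderAt F 5 = ⊤ := by
    rw [meromorphicOrderAt_eq_top_iff]
    rcases (hFm 5 h5).eventually_eq_zero_or_eventually_ne_zero with h | h
    · exact h
    · exfalso
      -- the points `5 + 1/(k+1)`
      have ht : Tendsto (fun k : ℕ => ((5 + 1 / ((k : ℝ) + 1) : ℝ) : ℂ)) atTop (𝓝[≠] (5 : ℂ)) := by
        rw [tendsto_nhdsWithin_iff]
        constructor
        · have h1 : Tendsto (fun k : ℕ => 5 + 1 / ((k : ℝ) + 1)) atTop (𝓝 (5 + 0)) :=
            tendsto_const_nhds.add tendsto_one_div_add_atTop_nhds_zero_nat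
          rw [add_zero] at h1
          have h2 := (Complex.continuous_ofReal.tendsto (5 : ℝ)).comp h1
          have e5 : ((5 : ℝ) : ℂ) = 5 := by norm_num
          rw [e5] at h2
          exact h2
        · refine Eventually.of_forall (fun k hk => ?_)
          have h1 : ((5 + 1 / ((k : ℝ) + 1) : ℝ) : ℂ) = ((5 : ℝ) : ℂ) := by
            rw [mem_singleton_iff] at hk
            rw [hk]
            simp
          rw [Complex.ofReal_inj] at h1
          have h2 : (0 : ℝ) < 1 / ((k : ℝ) + 1) := by positivity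
          linarith
      obtain ⟨k, hk⟩ := (ht.eventually h).exists
      apply hk
      rw [hF]
      have h1 := hs (5 + 1 / ((k : ℝ) + 1)) (by
        have : (0 : ℝ) < 1 / ((k : ℝ) + 1) := by positivity
        linarith)
      show pm m _ * B _ - A _ = 0
      rw [h1, sub_self]
  have h0 : meromorphicOrderAt F (-(2 * (m : ℂ))) = ⊤ := by
    by_contra hne
    exact hFm.meromorphicOrderAt_ne_top_of_isPreconnected hHc hm h5 hne htop
  rw [meromorphicOrderAt_eq_top_iff] at h0
  filter_upwards [h0] with z hz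
  rw [hF] at hz
  exact sub_eq_zero.1 hz

end Pool.Agent.K3h7.MI
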